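import Pool.Agent.H934.GC.Det
import Pool.Agent.H934.HS.Defs

/-!
# Group actions on fourfolds: definitions
-/

open CategoryTheory AlgebraicGeometry

universe u v

namespace Pool.Agent.H934.GC

open Pool.Agent.H914 Pool.Agent.H914.VarClass Pool.Agent.H914.VarClass.Obj
  Pool.Agent.H914.WeilCohomology Pool.Agent.H934.HS

variable {k : Type u} [Field k] {𝒱 : VarClass k} {ops : CycleOps 𝒱}

/-- The automorphisms `act g` define a (right) action of the group `G` on the fourfold `X`, which fixes
the class of the divisor `D`, and the Hodge index theorem holds for `D`. -/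
structure IsAction (W : WeilCohomology.{u, v} ops) {G : Type} [Group G] {X : 𝒱.Obj}
    (act : G → (X ⟶ X)) (D : X.Cycles) : Prop where
  dim : X.dim = 4
  one : act 1 = 𝟙 X
  mul : ∀ g g', act (g * g') = act g ≫ act g'
  index : HodgeIndex W X D
  invariant : ∀ g, HomEq W X (ops.pull (act g) D) D

/-- The cycle `x` on `X` is invariant, up to homological equivalence, under the subgroup `H` of the
group `G` which acts on `X`. -/
def IsInvariant (W : WeilCohomology.{u, v} ops) {G : Type} [Group G] {X : 𝒱.Obj}
    (act : G → (X ⟶ X)) (H : Subgroup G) (x : X.Cycles) : Prop :=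
  ∀ g ∈ H, HomEq W X (ops.pull (act g) x) x

/-- The fourfold `P` is a model of the quotient of the fourfold `X` by the subgroup `H` of the group `G`
which acts on `X`, in terms of cycles. In the intended use `P` is smooth projective with a generically
finite morphism to the quotient `X / H`, `Q` is smooth projective with a generically finite morphism to
(a component of) the fibre product of `X` and `P` over `X / H`, and `a : Q ⟶ X` and `b : Q ⟶ P` are the
projections; `D` is an (ample) divisor on `X` fixed by `H`, it descends to `X / H`, and `h` is its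
pull-back to `P`; `A` is an ample divisor on `P`. So `a` and `b` have positive degrees (`degreeA`,
`degreeB`), and `a^* D = b^* h` (`descends`). The correspondence `a_* b^* b_* a^*` is a multiple of the
sum of the graphs of the elements of a subgroup of `H`, plus cycles supported on products of subvarieties
of smaller dimension, which act trivially; so it is a positive multiple `κ` of the identity on the
invariant classes of codimension two (`norm`). The Hodge index theorem holds for the (ample) divisors
`A + N h`, `N ≥ 0`; the intersection number `A · A · h · h` is positive; the divisors on `Q` whose product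
with `a^* D` is numerically trivial are contracted to points by `a` (`contracted`). -/
structure IsQuotientModel (W : WeilCohomology.{u, v} ops) {G : Type} [Group G] {X : 𝒱.Obj}
    (act : G → (X ⟶ X)) (D : X.Cycles) (H : Subgroup G) {Q P : 𝒱.Obj} (a : Q ⟶ X) (b : Q ⟶ P)
    (h A : P.Cycles) : Prop where
  dimQ : Q.dim = 4
  dimP : P.dim = 4
  degreeA : ∃ δ : ℚ, 0 < δ ∧ HomEq W X (ops.push a Q.V.fundCycle) (δ • X.V.fundCycle)
  degreeB : ∃ δ : ℚ, 0 < δ ∧ HomEq W P (ops.push b Q.V.fundCycle) (δ • P.V.fundCycle)
  isCyc : P.IsCyc 1 h
  descends : HomEq W Q (ops.pull a D) (ops.pull b h)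
  norm : ∃ κ : ℚ, 0 < κ ∧ ∀ x, X.IsCyc 2 x → IsInvariant W act H x →
    HomEq W X (ops.push a (ops.pull b (ops.push b (ops.pull a x)))) (κ • x)
  indexP : ∀ N : ℕ, HodgeIndex W P (A + (N : ℚ) • h)
  mixed : 0 < inum ops (ops.mul A A) (ops.mul h h)
  contracted : IsContracted ops a D

/-- The quotient of `X` by `H` has a model `P` which satisfies the standard conjecture of Hodge type for
at least one divisor. -/
def HasGoodModel (W : WeilCohomology.{u, v} ops) {G : Type} [Group G] {X : 𝒱.Obj}
    (act : G → (X ⟶ X)) (D : X.Cycles) (H : Subgroup G) : Prop :=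
  ∃ (Q P : 𝒱.Obj) (a : Q ⟶ X) (b : Q ⟶ P) (h A C : P.Cycles),
    IsQuotientModel W act D H a b h A ∧ HodgeIndex W P C ∧ NumHodge ops P C

end Pool.Agent.H934.GC
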