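import Mathlib

/-!
# Families of subgroups which detect representations, and positivity of invariant forms
-/

open Matrix Module

namespace Pool.Agent.H934.GC

/-- The family `𝓗` of subgroups of the group `G` detects the representations of `G`: every nonzero
rational representation of finite dimension has a nonzero vector which is fixed by a member
of `𝓗`. -/
def Detects {G : Type} [Group G] (𝓗 : Set (Subgroup G)) : Prop :=
  ∀ (n : ℕ) (ρ : Representation ℚ G (Fin n → ℚ)), 0 < n →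
    ∃ H ∈ 𝓗, ∃ v : Fin n → ℚ, v ≠ 0 ∧ ∀ h ∈ H, ρ h v = v

variable {G : Type} [Group G] {𝓗 : Set (Subgroup G)}

lemma Detects.exists_fixed (hdet : Detects 𝓗) {V : Type*} [AddCommGroup V] [Module ℚ V]
    [FiniteDimensional ℚ V] [Nontrivial V] (ρ : Representation ℚ G V) :
    ∃ H ∈ 𝓗, ∃ v : V, v ≠ 0 ∧ ∀ h ∈ H, ρ h v = v := by
  let e : V ≃ₗ[ℚ] (Fin (finrank ℚ V) → ℚ) := (finBasis ℚ V).equivFun
  let ρ' : Representation ℚ G (Fin (finrank ℚ V) → ℚ) :=
    { toFun := fun g => e.toLinearMap ∘ₗ ρ g ∘ₗ e.symm.toLinearMap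
      map_one' := by
        apply LinearMap.ext
        intro x
        simp
      map_mul' := by
        intro g h
        apply LinearMap.ext
        intro x
        simp }
  have hρ' : ∀ g x, ρ' g x = e (ρ g (e.symm x)) := fun g x => rfl
  obtain ⟨H, hH, v, hv, hfix⟩ := hdet (finrank ℚ V) ρ' finrank_pos
  refine ⟨H, hH, e.symm v, fun h0 => hv ?_, fun h hh => ?_⟩
  · have := congrArg e h0
    rwa [LinearEquiv.apply_symm_apply, map_zero] at this
  · have := hfix h hh
    rw [hρ'] at this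
    have h2 := congrArg e.symm this
    rwa [LinearEquiv.symm_apply_apply] at h2

lemma fixed_zpowers {V : Type*} [AddCommGroup V] [Module ℚ V] (ρ : Representation ℚ G V) {g : G}
    {v : V} (h : ρ g v = v) : ∀ h ∈ Subgroup.zpowers g, ρ h v = v := by
  let F : Subgroup G :=
    { carrier := {h | ρ h v = v}
      mul_mem' := by
        intro a b ha hb
        change ρ (a * b) v = v
        rw [map_mul, Module.End.mul_apply, hb, ha]
      one_mem' := by
        change ρ 1 v = v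
        rw [map_one, Module.End.one_apply]
      inv_mem' := by
        intro a ha
        change ρ a⁻¹ v = v
        have h1 : ρ (a⁻¹ * a) v = v := by rw [inv_mul_cancel, map_one, Module.End.one_apply]
        rw [map_mul, Module.End.mul_apply, ha] at h1
        exact h1 }
  intro h' hh'
  have : Subgroup.zpowers g ≤ F := by
    rw [Subgroup.zpowers_le]
    exact h
  exact this hh'

/-- Example: if `s` and `t` are involutions (for example commuting ones), then the three subgroups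
generated by `s`, `t` and `s t` detect the representations of `G`. -/
theorem detects_klein {s t : G} (hs : s * s = 1) (ht : t * t = 1) :
    Detects ({Subgroup.zpowers s, Subgroup.zpowers t, Subgroup.zpowers (s * t)} :
      Set (Subgroup G)) := by
  intro n ρ hn
  obtain ⟨v, hv⟩ : ∃ v : Fin n → ℚ, v ≠ 0 := by
    refine ⟨fun _ => 1, fun h => ?_⟩
    have := congrFun h ⟨0, hn⟩
    simp at this
  have hinv : ∀ g : G, g * g = 1 → ρ g (v + ρ g v) = v + ρ g v := by
    intro g hg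
    rw [map_add, ← Module.End.mul_apply, ← map_mul, hg, map_one, Module.End.one_apply, add_comm]
  by_cases h1 : v + ρ s v = 0
  · by_cases h2 : v + ρ t v = 0
    · refine ⟨_, Or.inr (Or.inr rfl), v, hv, fixed_zpowers ρ ?_⟩
      have e1 : ρ s v = -v := by rw [eq_neg_iff_add_eq_zero, add_comm]; exact h1
      have e2 : ρ t v = -v := by rw [eq_neg_iff_add_eq_zero, add_comm]; exact h2
      rw [map_mul, Module.End.mul_apply, e2, map_neg, e1, neg_neg]
    · exact ⟨_, Or.inr (Or.inl rfl), _, h2, fixed_zpowers ρ (hinv t ht)⟩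
  · exact ⟨_, Or.inl rfl, _, h1, fixed_zpowers ρ (hinv s hs)⟩

section Real

variable {n : ℕ}

/-- The smallest value of the quotient of two quadratic forms, of which the second is positive
definite. -/
lemma exists_min_ratio (hn : 0 < n) (M N : Matrix (Fin n) (Fin n) ℝ)
    (hN : ∀ x : Fin n → ℝ, x ≠ 0 → 0 < x ⬝ᵥ N *ᵥ x) :
    ∃ (t : ℝ) (x₀ : Fin n → ℝ), x₀ ≠ 0 ∧ x₀ ⬝ᵥ M *ᵥ x₀ = t * (x₀ ⬝ᵥ N *ᵥ x₀) ∧
      ∀ x : Fin n → ℝ, t * (x ⬝ᵥ N *ᵥ x) ≤ x ⬝ᵥ M *ᵥ x := by
  have hcont : ∀ A : Matrix (Fin n) (Fin n) ℝ, Continuous fun x : Fin n → ℝ => x ⬝ᵥ A *ᵥ x := by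
    intro A
    simp only [dotProduct, mulVec]
    fun_prop
  have hne : (Metric.sphere (0 : Fin n → ℝ) 1).Nonempty := by
    have : Nontrivial (Fin n → ℝ) := by
      have : Nonempty (Fin n) := ⟨⟨0, hn⟩⟩
      infer_instance
    exact NormedSpace.sphere_nonempty.2 zero_le_one
  have hS : ∀ x ∈ Metric.sphere (0 : Fin n → ℝ) 1, x ≠ 0 := by
    intro x hx h0
    rw [h0] at hx
    simp at hx
  obtain ⟨x₀, hx₀, hmin⟩ := (isCompact_sphere (0 : Fin n → ℝ) 1).exists_isMinOn hne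
    (f := fun x => (x ⬝ᵥ M *ᵥ x) / (x ⬝ᵥ N *ᵥ x))
    (ContinuousOn.div (hcont M).continuousOn (hcont N).continuousOn
      fun x hx => (hN x (hS x hx)).ne')
  have hx0 := hS x₀ hx₀
  refine ⟨(x₀ ⬝ᵥ M *ᵥ x₀) / (x₀ ⬝ᵥ N *ᵥ x₀), x₀, hx0, ?_, fun x => ?_⟩
  · rw [div_mul_cancel₀ _ (hN x₀ hx0).ne']
  · by_cases hx : x = 0
    · subst hx
      simp
    have hnx : ‖x‖ ≠ 0 := norm_ne_zero_iff.2 hx
    have hmem : ‖x‖⁻¹ • x ∈ Metric.sphere (0 : Fin n → ℝ) 1 := by
      rw [mem_sphere_zero_iff_norm, norm_smul, norm_inv, norm_norm, inv_mul_cancel₀ hnx]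
    have h1 := hmin hmem
    simp only [Set.mem_setOf_eq] at h1
    have hsc : ∀ A : Matrix (Fin n) (Fin n) ℝ, (‖x‖⁻¹ • x) ⬝ᵥ A *ᵥ (‖x‖⁻¹ • x) =
        ‖x‖⁻¹ ^ 2 * (x ⬝ᵥ A *ᵥ x) := by
      intro A
      rw [mulVec_smul, smul_dotProduct, dotProduct_smul, smul_eq_mul, smul_eq_mul]
      ring
    have hpos : 0 < ‖x‖⁻¹ ^ 2 := by positivity
    rw [hsc, hsc, mul_div_mul_left _ _ hpos.ne'] at h1
    exact (le_div_iff₀ (hN x hx)).1 h1

end Real

/-- **Positivity of an invariant form is detected by a detecting family of subgroups.** -/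
theorem nonneg_of_detects [Fintype G] (hdet : Detects 𝓗) {V : Type*} [AddCommGroup V] [Module ℚ V]
    [FiniteDimensional ℚ V] (ρ : Representation ℚ G V) (B : V →ₗ[ℚ] V →ₗ[ℚ] ℚ)
    (hs : ∀ v w, B v w = B w v) (hinv : ∀ g v w, B (ρ g v) (ρ g w) = B v w)
    (hpos : ∀ H ∈ 𝓗, ∀ v, (∀ h ∈ H, ρ h v = v) → 0 ≤ B v v) (v : V) : 0 ≤ B v v := by
  classical
  by_cases hn : finrank ℚ V = 0
  · have := finrank_zero_iff.1 hn
    rw [Subsingleton.elim v 0]
    simp
  replace hn := Nat.pos_of_ne_zero hn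
  set n := finrank ℚ V with hndef
  let b : Basis (Fin n) ℚ V := finBasis ℚ V
  let c : ℚ →+* ℝ := Rat.castHom ℝ
  -- the matrices
  let R₀ : G → Matrix (Fin n) (Fin n) ℚ := fun g => LinearMap.toMatrix b b (ρ g)
  let M₀ : Matrix (Fin n) (Fin n) ℚ := Matrix.of fun i j => B (b i) (b j)
  have hR₀ : ∀ g v, R₀ g *ᵥ (b.repr v) = b.repr (ρ g v) := fun g v =>
    LinearMap.toMatrix_mulVec_repr b b (ρ g) v
  have hB₀ : ∀ v w, B v w = (b.repr v : Fin n → ℚ) ⬝ᵥ M₀ *ᵥ (b.repr w : Fin n → ℚ) := by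
    intro v w
    conv_lhs => rw [← b.sum_repr v, ← b.sum_repr w]
    simp only [map_sum, LinearMap.sum_apply, map_smul, LinearMap.smul_apply, smul_eq_mul,
      dotProduct, mulVec, M₀, Matrix.of_apply]
    simp only [Finset.mul_sum]
    rw [Finset.sum_comm]
    apply Finset.sum_congr rfl
    intro i _
    apply Finset.sum_congr rfl
    intro j _
    ring
  have hRmul₀ : ∀ g h, R₀ (g * h) = R₀ g * R₀ h := by
    intro g h
    change LinearMap.toMatrix b b (ρ (g * h)) = _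
    rw [map_mul]
    exact LinearMap.toMatrix_mul b (ρ g) (ρ h)
  have hRone₀ : R₀ 1 = 1 := by
    change LinearMap.toMatrix b b (ρ 1) = _
    rw [map_one]
    exact LinearMap.toMatrix_one b
  have hinv₀ : ∀ g, (R₀ g)ᵀ * M₀ * R₀ g = M₀ := by
    intro g
    ext i j
    have h1 := hinv g (b i) (b j)
    rw [hB₀, hB₀, ← hR₀, ← hR₀, b.repr_self, b.repr_self] at h1
    have h2 : ∀ (A : Matrix (Fin n) (Fin n) ℚ), ((Finsupp.single i (1 : ℚ) : Fin n →₀ ℚ) :
        Fin n → ℚ) ⬝ᵥ A *ᵥ ((Finsupp.single j (1 : ℚ) : Fin n →₀ ℚ) : Fin n → ℚ) = A i j := by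
      intro A
      rw [Finsupp.single_eq_pi_single, Finsupp.single_eq_pi_single, mulVec_single_one,
        single_one_dotProduct]
      rfl
    rw [← h2 ((R₀ g)ᵀ * M₀ * R₀ g), ← h2 M₀, ← h1, ← mulVec_mulVec, ← mulVec_mulVec,
      dotProduct_mulVec _ (R₀ g)ᵀ, vecMul_transpose]
  have hsymm₀ : M₀ᵀ = M₀ := by
    ext i j
    exact hs _ _
  -- the real matrices
  let R : G → Matrix (Fin n) (Fin n) ℝ := fun g => (R₀ g).map c
  let M : Matrix (Fin n) (Fin n) ℝ := M₀.map c
  have hRmul : ∀ g h, R (g * h) = R g * R h := fun g h => by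
    change (R₀ (g * h)).map c = _
    rw [hRmul₀, Matrix.map_mul]
  have hRone : R 1 = 1 := by
    change (R₀ 1).map c = _
    rw [hRone₀, Matrix.map_one _ (map_zero c) (map_one c)]
  have hMinv : ∀ g, (R g)ᵀ * M * R g = M := by
    intro g
    have := congrArg (fun A => A.map c) (hinv₀ g)
    simp only [Matrix.map_mul] at this
    exact this
  have hMsymm : Mᵀ = M := by
    have := congrArg (fun A => A.map c) hsymm₀
    exact this
  let N : Matrix (Fin n) (Fin n) ℝ := ∑ g, (R g)ᵀ * R g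
  have hNinv : ∀ g, (R g)ᵀ * N * R g = N := by
    intro g
    change (R g)ᵀ * (∑ h, (R h)ᵀ * R h) * R g = ∑ h, (R h)ᵀ * R h
    have h1 : ∑ h, (R h)ᵀ * R h = ∑ h, (R (h * g))ᵀ * R (h * g) :=
      (Equiv.sum_comp (Equiv.mulRight g) (fun h => (R h)ᵀ * R h)).symm
    conv_rhs => rw [h1]
    rw [Finset.mul_sum, Finset.sum_mul]
    apply Finset.sum_congr rfl
    intro h _
    rw [hRmul, transpose_mul]
    simp only [Matrix.mul_assoc]
  have hNsymm : Nᵀ = N := by
    change (∑ g, (R g)ᵀ * R g)ᵀ = ∑ g, (R g)ᵀ * R g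
    rw [transpose_sum]
    simp only [transpose_mul, transpose_transpose]
  have hNx : ∀ x : Fin n → ℝ, x ⬝ᵥ N *ᵥ x = ∑ g, (R g *ᵥ x) ⬝ᵥ (R g *ᵥ x) := by
    intro x
    change x ⬝ᵥ (∑ g, (R g)ᵀ * R g) *ᵥ x = _
    rw [sum_mulVec, dotProduct_sum]
    apply Finset.sum_congr rfl
    intro g _
    rw [← mulVec_mulVec, dotProduct_mulVec, vecMul_transpose]
  have hNpos : ∀ x : Fin n → ℝ, x ≠ 0 → 0 < x ⬝ᵥ N *ᵥ x := by
    intro x hx
    rw [hNx]
    apply Finset.sum_pos'
    · intro g _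
      exact Finset.sum_nonneg fun i _ => mul_self_nonneg _
    · refine ⟨1, Finset.mem_univ _, ?_⟩
      rw [hRone, one_mulVec]
      obtain ⟨i, hi⟩ := Function.ne_iff.1 hx
      exact Finset.sum_pos' (fun i _ => mul_self_nonneg _)
        ⟨i, Finset.mem_univ _, mul_self_pos.2 hi⟩
  have hcast : ∀ v w : V, ((B v w : ℚ) : ℝ) =
      (fun i => (b.repr v i : ℝ)) ⬝ᵥ M *ᵥ (fun i => (b.repr w i : ℝ)) := by
    intro v w
    rw [hB₀]
    simp only [dotProduct, mulVec, M, Matrix.map_apply, c, Rat.coe_castHom]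
    push_cast
    rfl
  obtain ⟨t, x₀, hx₀, hmin₀, hmin⟩ := exists_min_ratio hn M N hNpos
  by_cases ht : 0 ≤ t
  · have h1 := hmin (fun i => (b.repr v i : ℝ))
    rw [← hcast] at h1
    have h2 : (0 : ℝ) ≤ (fun i => (b.repr v i : ℝ)) ⬝ᵥ N *ᵥ (fun i => (b.repr v i : ℝ)) := by
      by_cases h0 : (fun i => (b.repr v i : ℝ)) = 0
      · rw [h0]; simp
      · exact (hNpos _ h0).le
    have h3 : (0 : ℝ) ≤ (B v v : ℚ) := le_trans (mul_nonneg ht h2) h1
    exact_mod_cast h3
  exfalso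
  push Not at ht
  -- the eigenspace
  let C : Matrix (Fin n) (Fin n) ℝ := M - t • N
  have hCx : ∀ x : Fin n → ℝ, x ⬝ᵥ C *ᵥ x = x ⬝ᵥ M *ᵥ x - t * (x ⬝ᵥ N *ᵥ x) := by
    intro x
    change x ⬝ᵥ (M - t • N) *ᵥ x = _
    rw [sub_mulVec, dotProduct_sub, smul_mulVec, dotProduct_smul, smul_eq_mul]
  have hCpsd : C.PosSemidef := by
    apply Matrix.PosSemidef.of_dotProduct_mulVec_nonneg
    · change (M - t • N)ᴴ = M - t • N
      rw [conjTranspose_eq_transpose_of_trivial, transpose_sub, transpose_smul, hMsymm, hNsymm]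
    · intro x
      rw [star_trivial, hCx]
      linarith [hmin x]
  have hCx₀ : C *ᵥ x₀ = 0 := by
    rw [← hCpsd.dotProduct_mulVec_zero_iff, star_trivial, hCx, hmin₀, sub_self]
  have hCinv : ∀ g, (R g)ᵀ * C * R g = C := by
    intro g
    change (R g)ᵀ * (M - t • N) * R g = M - t • N
    rw [Matrix.mul_sub, Matrix.sub_mul, hMinv, Matrix.mul_smul, Matrix.smul_mul, hNinv]
  have hCR : ∀ g, C * R g = (R g⁻¹)ᵀ * C := by
    intro g
    have h1 : (R g⁻¹)ᵀ * ((R g)ᵀ * C * R g) = (R g⁻¹)ᵀ * C := by rw [hCinv]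
    rw [← h1]
    have h2 : (R g⁻¹)ᵀ * (R g)ᵀ = 1 := by
      rw [← transpose_mul, ← hRmul, mul_inv_cancel, hRone, transpose_one]
    rw [← Matrix.mul_assoc, ← Matrix.mul_assoc, h2, Matrix.one_mul]
  -- the rational span of the orbit of `x₀`
  let U : Submodule ℚ (Fin n → ℝ) := Submodule.span ℚ (Set.range fun g => R g *ᵥ x₀)
  have hUfin : FiniteDimensional ℚ U := FiniteDimensional.span_of_finite ℚ (Set.finite_range _)
  have hUC : ∀ x ∈ U, C *ᵥ x = 0 := by
    intro x hx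
    refine Submodule.span_induction (p := fun x _ => C *ᵥ x = 0) ?_ ?_ ?_ ?_ hx
    · rintro _ ⟨g, rfl⟩
      change C *ᵥ (R g *ᵥ x₀) = 0
      rw [mulVec_mulVec, hCR, ← mulVec_mulVec, hCx₀, mulVec_zero]
    · exact mulVec_zero _
    · intro x y _ _ hx hy
      rw [mulVec_add, hx, hy, add_zero]
    · intro a x _ hx
      rw [mulVec_smul, hx, smul_zero]
  let σ₀ : G → (Fin n → ℝ) →ₗ[ℚ] (Fin n → ℝ) := fun g => (Matrix.toLin' (R g)).restrictScalars ℚ
  have hσ₀ : ∀ g x, σ₀ g x = R g *ᵥ x := fun g x => rfl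
  have hUσ : ∀ g, ∀ x ∈ U, σ₀ g x ∈ U := by
    intro g x hx
    refine Submodule.span_induction (p := fun x _ => σ₀ g x ∈ U) ?_ ?_ ?_ ?_ hx
    · rintro _ ⟨h, rfl⟩
      apply Submodule.subset_span
      refine ⟨g * h, ?_⟩
      change R (g * h) *ᵥ x₀ = R g *ᵥ (R h *ᵥ x₀)
      rw [hRmul, mulVec_mulVec]
    · rw [map_zero]; exact zero_mem _
    · intro x y _ _ hx hy
      rw [map_add]; exact add_mem hx hy
    · intro a x _ hx
      rw [map_smul]; exact Submodule.smul_mem _ _ hx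
  let σ : Representation ℚ G U :=
    { toFun := fun g => (σ₀ g).restrict (hUσ g)
      map_one' := by
        apply LinearMap.ext
        intro x
        apply Subtype.ext
        change R 1 *ᵥ (x : Fin n → ℝ) = x
        rw [hRone, one_mulVec]
      map_mul' := by
        intro g h
        apply LinearMap.ext
        intro x
        apply Subtype.ext
        change R (g * h) *ᵥ (x : Fin n → ℝ) = R g *ᵥ (R h *ᵥ (x : Fin n → ℝ))
        rw [hRmul, mulVec_mulVec] }
  have hUne : Nontrivial U := by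
    refine ⟨⟨⟨x₀, Submodule.subset_span ⟨1, ?_⟩⟩, 0, fun h => hx₀ (congrArg Subtype.val h)⟩⟩
    change R 1 *ᵥ x₀ = x₀
    rw [hRone, one_mulVec]
  obtain ⟨H, hH, ⟨x, hxU⟩, hx, hfix⟩ := hdet.exists_fixed σ
  have hx0 : x ≠ 0 := fun h => hx (Subtype.ext h)
  have hfix' : ∀ h ∈ H, R h *ᵥ x = x := fun h hh => congrArg Subtype.val (hfix h hh)
  have hneg : x ⬝ᵥ M *ᵥ x < 0 := by
    have h1 := hCx x
    rw [hUC x hxU, dotProduct_zero] at h1
    have h2 := mul_neg_of_neg_of_pos ht (hNpos x hx0)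
    linarith
  -- the projector
  let E : Matrix (Fin n) (Fin n) ℝ := ∑ h : H, R h
  have hEx : E *ᵥ x = (Fintype.card H : ℝ) • x := by
    change (∑ h : H, R h) *ᵥ x = _
    rw [sum_mulVec, Finset.sum_congr rfl (fun h _ => hfix' h.1 h.2), Finset.sum_const,
      Finset.card_univ, Nat.cast_smul_eq_nsmul]
  have hall : ∀ y : Fin n → ℝ, 0 ≤ (E *ᵥ y) ⬝ᵥ M *ᵥ (E *ᵥ y) := by
    have hclosed : IsClosed {y : Fin n → ℝ | 0 ≤ (E *ᵥ y) ⬝ᵥ M *ᵥ (E *ᵥ y)} := by
      apply isClosed_le continuous_const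
      simp only [dotProduct, mulVec]
      fun_prop
    have hdense : DenseRange (fun (q : Fin n → ℚ) (i : Fin n) => (q i : ℝ)) := by
      have := DenseRange.piMap (f := fun (_ : Fin n) (q : ℚ) => (q : ℝ))
        (fun _ => Rat.denseRange_cast)
      exact this
    have hsub : closure (Set.range (fun (q : Fin n → ℚ) (i : Fin n) => (q i : ℝ))) ⊆
        {y : Fin n → ℝ | 0 ≤ (E *ᵥ y) ⬝ᵥ M *ᵥ (E *ᵥ y)} := by
      rw [hclosed.closure_subset_iff]
      rintro _ ⟨q, rfl⟩
      change 0 ≤ (E *ᵥ (fun i => (q i : ℝ))) ⬝ᵥ M *ᵥ (E *ᵥ (fun i => (q i : ℝ)))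
      let w : V := b.equivFun.symm q
      have hw : (b.repr w : Fin n → ℚ) = q := b.equivFun.apply_symm_apply q
      let w' : V := ∑ h : H, ρ h w
      have hw' : ∀ h ∈ H, ρ h w' = w' := by
        intro h hh
        change ρ h (∑ h : H, ρ h w) = ∑ h : H, ρ h w
        have h1 : ∑ h' : H, ρ h' w = ∑ h' : H, ρ (h * h') w :=
          (Equiv.sum_comp (Equiv.mulLeft (⟨h, hh⟩ : H)) (fun h' : H => ρ h' w)).symm
        conv_rhs => rw [h1]
        rw [map_sum]
        apply Finset.sum_congr rfl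
        intro h' _
        rw [map_mul]
        rfl
      have h1 := hpos H hH w' hw'
      have h2 : (fun i => (b.repr w' i : ℝ)) = E *ᵥ (fun i => (q i : ℝ)) := by
        have h3 : ∀ h : H, (fun i => (b.repr (ρ h w) i : ℝ)) = R h *ᵥ (fun i => (q i : ℝ)) := by
          intro h
          rw [← hw]
          ext i
          rw [← hR₀]
          simp only [mulVec, dotProduct, R, Matrix.map_apply, c, Rat.coe_castHom]
          push_cast
          rfl
        change _ = (∑ h : H, R h) *ᵥ _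
        rw [sum_mulVec]
        ext i
        rw [Finset.sum_apply]
        change ((b.repr (∑ h : H, ρ h w) i : ℚ) : ℝ) = _
        rw [map_sum, Finsupp.coe_finset_sum, Finset.sum_apply]
        push_cast
        apply Finset.sum_congr rfl
        intro h _
        exact congrFun (h3 h) i
      have h3 : (0 : ℝ) ≤ (B w' w' : ℚ) := by exact_mod_cast h1
      rw [hcast, h2] at h3
      exact h3
    intro y
    exact hsub (hdense y)
  have h1 := hall x
  rw [hEx, mulVec_smul, smul_dotProduct, dotProduct_smul, smul_eq_mul, smul_eq_mul,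
    ← mul_assoc] at h1
  have h2 : (0 : ℝ) < (Fintype.card H : ℝ) * (Fintype.card H : ℝ) := by
    have : 0 < Fintype.card H := Fintype.card_pos
    positivity
  have h3 := mul_neg_of_pos_of_neg h2 hneg
  linarith

end Pool.Agent.H934.GC
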