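import Pool.Agent.H934.GC.Model

/-!
# Fourfolds with a group action whose quotients have good models
-/

open CategoryTheory AlgebraicGeometry Module

universe u v

namespace Pool.Agent.H934.GC

open Pool.Agent.H914 Pool.Agent.H914.VarClass Pool.Agent.H914.VarClass.Obj
  Pool.Agent.H914.WeilCohomology Pool.Agent.H934.HS

variable {k : Type u} [Field k] {𝒱 : VarClass k} {ops : CycleOps 𝒱}
  {W : WeilCohomology.{u, v} ops} {X : 𝒱.Obj} {G : Type} [Group G] {act : G → (X ⟶ X)}
  {D : X.Cycles}

section

variable (hact : IsAction W act D)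

include hact

lemma map_act_mul (g g' : G) (c : W.H X) :
    W.map (act (g * g')) c = W.map (act g) (W.map (act g') c) := by
  rw [hact.mul, W.map_comp]

lemma map_act_one (c : W.H X) : W.map (act 1) c = c := by
  rw [hact.one, W.map_id]

lemma map_act_inv (g : G) (c : W.H X) : W.map (act g) (W.map (act g⁻¹) c) = c := by
  rw [← map_act_mul hact, mul_inv_cancel, map_act_one hact]

lemma map_act_D (g : G) : W.map (act g) (W.cl X D) = W.cl X D := by
  have := (hact.invariant g).cl
  rwa [W.cl_pull] at this

/-- The automorphisms have degree one. -/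
lemma qtr_act (g : G) (c : W.H X) : qtr W X (W.map (act g) c) = qtr W X c := by
  have h0 : W.push (act g) 1 ∈ W.gr X 0 := by
    have := gr_of_alg (alg_push (act g) (alg_one (W := W) (X := X))
      (show 0 + X.dim = 0 + X.dim from rfl))
    simpa using this
  rw [W.gr_zero, Submodule.mem_span_singleton] at h0
  obtain ⟨t, ht⟩ := h0
  have h1 : ∀ c, W.tr X (W.map (act g) c) = t * W.tr X c := by
    intro c
    have := W.tr_push (act g) 1 c
    rw [one_mul, ← ht, smul_mul_assoc, one_mul, map_smul, smul_eq_mul] at this
    exact this.symm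
  have h2 : W.tr X (W.cl X D ^ X.dim) ≠ 0 := by
    have h3 := hact.index.pos_qtr
    intro h0
    change 0 < retr W.K (W.tr X _) at h3
    rw [h0, map_zero] at h3
    exact lt_irrefl _ h3
  have ht1 : t = 1 := by
    have h3 := h1 (W.cl X D ^ X.dim)
    rw [map_pow, map_act_D hact] at h3
    exact mul_right_cancel₀ h2 (by rw [one_mul]; exact h3.symm)
  change retr W.K _ = retr W.K _
  rw [h1, ht1, one_mul]

/-- **If the squares of the primitive classes which are invariant under a member of a detecting family
of subgroups are nonnegative, then the squares of all primitive classes are.** -/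
theorem nonneg_of_invariants [Fintype G] {𝓗 : Set (Subgroup G)} (hdet : Detects 𝓗)
    (hpos : ∀ H ∈ 𝓗, ∀ x, X.IsCyc 2 x → IsInvariant W act H x →
      (∀ w ∈ alg W X 1, qtr W X (W.cl X x * (W.cl X D * w)) = 0) →
      0 ≤ qtr W X (W.cl X x * W.cl X x)) (x : alg W X 2)
    (hx : ∀ w ∈ alg W X 1, qtr W X ((x : W.H X) * (W.cl X D * w)) = 0) : 0 ≤ q2 W X x x := by
  classical
  -- the primitive classes
  let Pr : Submodule ℚ (alg W X 2) :=
    { carrier := {x | ∀ w ∈ alg W X 1, qtr W X ((x : W.H X) * (W.cl X D * w)) = 0}
      add_mem' := by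
        intro a b ha hb w hw
        change qtr W X (((a : W.H X) + b) * _) = 0
        rw [add_mul, map_add, ha w hw, hb w hw, add_zero]
      zero_mem' := by
        intro w _
        change qtr W X ((0 : W.H X) * _) = 0
        rw [zero_mul, map_zero]
      smul_mem' := by
        intro q a ha w hw
        change qtr W X ((q • (a : W.H X)) * _) = 0
        rw [rat_smul, smul_mul_assoc, ← rat_smul, map_smul, ha w hw, smul_zero] }
  let ρ₀ : G → alg W X 2 →ₗ[ℚ] alg W X 2 := fun g => pullL W (act g) 2
  have hρ₀ : ∀ g (y : alg W X 2), (ρ₀ g y : W.H X) = W.map (act g) (y : W.H X) := fun g y => rfl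
  have hρPr : ∀ g, ∀ y ∈ Pr, ρ₀ g y ∈ Pr := by
    intro g y hy w hw
    rw [hρ₀]
    have h1 : W.map (act g) (y : W.H X) * (W.cl X D * w) =
        W.map (act g) ((y : W.H X) * (W.cl X D * W.map (act g⁻¹) w)) := by
      rw [map_mul (W.map (act g)), map_mul (W.map (act g)), map_act_D hact, map_act_inv hact]
    rw [h1, qtr_act hact]
    exact hy _ (alg_map _ hw)
  -- the span of the orbit of `x`
  let U : Submodule ℚ (alg W X 2) := Submodule.span ℚ (Set.range fun g => ρ₀ g x)
  have hUfin : FiniteDimensional ℚ U := FiniteDimensional.span_of_finite ℚ (Set.finite_range _)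
  have hUPr : U ≤ Pr := by
    apply Submodule.span_le.2
    rintro _ ⟨g, rfl⟩
    exact hρPr g x hx
  have hUρ : ∀ g, ∀ y ∈ U, ρ₀ g y ∈ U := by
    intro g y hy
    refine Submodule.span_induction (p := fun y _ => ρ₀ g y ∈ U) ?_ ?_ ?_ ?_ hy
    · rintro _ ⟨h, rfl⟩
      apply Submodule.subset_span
      refine ⟨g * h, ?_⟩
      apply Subtype.ext
      change W.map (act (g * h)) (x : W.H X) = W.map (act g) (W.map (act h) (x : W.H X))
      rw [map_act_mul hact]
    · rw [map_zero]; exact zero_mem _
    · intro x y _ _ hx hy
      rw [map_add]; exact add_mem hx hy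
    · intro a x _ hx
      rw [map_smul]; exact Submodule.smul_mem _ _ hx
  let ρ : Representation ℚ G U :=
    { toFun := fun g => (ρ₀ g).restrict (hUρ g)
      map_one' := by
        apply LinearMap.ext
        intro y
        apply Subtype.ext
        apply Subtype.ext
        change W.map (act 1) ((y : alg W X 2) : W.H X) = _
        rw [map_act_one hact]
        rfl
      map_mul' := by
        intro g h
        apply LinearMap.ext
        intro y
        apply Subtype.ext
        apply Subtype.ext
        change W.map (act (g * h)) ((y : alg W X 2) : W.H X) =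
          W.map (act g) (W.map (act h) ((y : alg W X 2) : W.H X))
        rw [map_act_mul hact] }
  have hρ : ∀ g (y : U), (((ρ g y : U) : alg W X 2) : W.H X) =
      W.map (act g) ((y : alg W X 2) : W.H X) := fun g y => rfl
  let B : U →ₗ[ℚ] U →ₗ[ℚ] ℚ := (q2 W X).domRestrict₁₂ U U
  have hB : ∀ y z : U, B y z = q2 W X y z := fun y z => rfl
  have hxU : x ∈ U := by
    apply Submodule.subset_span
    refine ⟨1, ?_⟩
    apply Subtype.ext
    change W.map (act 1) (x : W.H X) = x
    rw [map_act_one hact]
  have key := nonneg_of_detects (V := U) hdet ρ B (fun y z => by rw [hB, hB]; exact q2_symm _ _)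
    (fun g y z => by
      rw [hB, hB, q2_apply, q2_apply, hρ, hρ, ← map_mul (W.map (act g)), qtr_act hact])
    (fun H hH y hy => by
      rw [hB, q2_apply]
      have hyPr := hUPr y.2
      obtain ⟨z, hz, hzy⟩ := (y : alg W X 2).2
      rw [← hzy]
      apply hpos H hH z hz
      · intro g hg
        have h1 := congrArg (fun u : U => ((u : alg W X 2) : W.H X)) (hy g hg)
        change W.map (act g) ((y : alg W X 2) : W.H X) = ((y : alg W X 2) : W.H X) at h1
        change W.cl X (ops.pull (act g) z) = W.cl X z
        rw [W.cl_pull, hzy]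
        exact h1
      · intro w hw
        rw [hzy]
        exact hyPr w hw) ⟨x, hxU⟩
  exact key

end

/-- **Fourfolds with a group action whose quotients have good models are good.** -/
theorem good_of_action [Finite G] (hact : IsAction W act D) {𝓗 : Set (Subgroup G)}
    (hdet : Detects 𝓗) (hmod : ∀ H ∈ 𝓗, HasGoodModel W act D H) : Good W X := by
  have := Fintype.ofFinite G
  apply good_of_prim hact.index hact.dim
  intro x hx
  apply nonneg_of_invariants hact hdet
  · intro H hH z hz hinv hprim
    obtain ⟨Q, P, a, b, h, A, C, hm, hC, hN⟩ := hmod H hH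
    exact nonneg_of_model hact hm (good_of_numHodge hm.dimP hC hN) hz hinv hprim
  · intro w hw
    exact hx ⟨w, hw⟩

end Pool.Agent.H934.GC
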