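import Pool.Agent.H934.GC.Defs
import Pool.Agent.H934.HS.Image

/-!
# Positivity on the classes which come from a model of a quotient
-/

open CategoryTheory AlgebraicGeometry Module

universe u v

namespace Pool.Agent.H934.GC

open Pool.Agent.H914 Pool.Agent.H914.VarClass Pool.Agent.H914.VarClass.Obj
  Pool.Agent.H914.WeilCohomology Pool.Agent.H934.HS

variable {k : Type u} [Field k] {𝒱 : VarClass k} {ops : CycleOps 𝒱}
  {W : WeilCohomology.{u, v} ops} {P Q X : 𝒱.Obj}

/-- **The orthogonal complement of `h N¹(P)` on a good fourfold `P`**, for a limit `h` of divisors with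
the Hodge index theorem. -/
theorem nonneg_of_good (hG : Good W P) {A h : P.Cycles} (hh : P.IsCyc 1 h)
    (hind : ∀ N : ℕ, HodgeIndex W P (A + (N : ℚ) • h))
    (hc4 : 0 < qtr W P (W.cl P h ^ 4))
    (hmix : 0 < inum ops (ops.mul A A) (ops.mul h h)) (y : alg W P 2)
    (hy1 : ∀ w ∈ alg W P 1, qtr W P ((y : W.H P) * (W.cl P h * w)) = 0)
    (hy2 : ∀ r, P.IsCyc 1 r → NumTriv ops P 2 (ops.mul r h) →
      qtr W P ((y : W.H P) * (W.cl P A * W.cl P r)) = 0) : 0 ≤ q2 W P y y := by
  classical
  obtain ⟨hP, m, hneg, d, hd⟩ := hG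
  have hA : P.IsCyc 1 A := by simpa using (hind 0).isCyc
  set α := W.cl P A with hαdef
  set θ := W.cl P h with hθdef
  have hα : α ∈ alg W P 1 := cl_mem_alg hA
  have hθ : θ ∈ alg W P 1 := cl_mem_alg hh
  have hcl : ∀ N : ℕ, W.cl P (A + (N : ℚ) • h) = α + (N : ℚ) • θ := fun N => by
    rw [map_add, cl_smul, rat_smul]
  have hmixed : 0 < qtr W P (α ^ 2 * (θ * θ)) := by
    rw [inum_eq (W := W) (ops.mul_mem hA hA) (ops.mul_mem hh hh) (by omega), W.cl_mul, W.cl_mul,
      ← pow_two (W.cl P A)] at hmix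
    exact hmix
  -- the Hodge index theorem for `A`
  have hAneg : ∀ a ∈ alg W P 1, qtr W P (α ^ 3 * a) = 0 → a ≠ 0 →
      qtr W P (α ^ 2 * (a * a)) < 0 := by
    intro a ha h0 hne
    have h1 := (hind 0).neg (W := W) (by omega) ha
    rw [hcl, hP] at h1
    simp only [Nat.cast_zero, zero_smul, add_zero] at h1
    exact h1 h0 hne
  exact nonneg_of_orthogonal (Q := q2 W P) q2_symm hneg (mulL hθ) (mulL hα)
    (fun a b => by
      rw [q2_mulL_mulL, q2_mulL_mulL, alg_comm hθ α])
    (((qf W P) (θ ^ 3)) ∘ₗ (alg W P 1).subtype) (ntDiv W P) d hd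
    (fun w hw => by
      change qtr W P (θ ^ 3 * (w : W.H P)) = 0 at hw
      rw [q2_mulL_mulL, ← pow_two θ]
      refine limit_ineq (qtr W P (α ^ 2 * ((w : W.H P) * w))) (qtr W P (α * θ * ((w : W.H P) * w)))
        _ (qtr W P (α ^ 3 * w)) (qtr W P (α ^ 2 * θ * w)) (qtr W P (α * θ ^ 2 * w))
        (qtr W P (α ^ 4)) (qtr W P (α ^ 3 * θ)) (qtr W P (α ^ 2 * θ ^ 2))
        (qtr W P (α * θ ^ 3)) (qtr W P (θ ^ 4)) hc4 ?_
      intro N
      have h1 := (hind N).lorentz (W := W) (by omega) w.2
      rw [hcl, hP] at h1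
      simp only [Nat.reduceSub] at h1
      rw [expand2 hα hθ w.2, expand3 hα hθ w.2, expand4 hα hθ, hw] at h1
      simpa using h1)
    (fun r hr hrN => by
      have hB : ∀ a ∈ alg W P 1, qtr W P (α ^ 2 * (θ * a)) = qtr W P (α ^ 2 * (a * θ)) :=
        fun a _ => by rw [alg_comm hθ a]
      have hθr : qtr W P (α ^ 2 * (θ * (r : W.H P))) = 0 := by
        have h1 := hr ⟨α ^ 2, by have := alg_pow hα 2; rwa [mul_one] at this⟩
        rw [q2_apply, mulL_coe] at h1
        rw [← alg_comm (alg_mul hθ r.2)]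
        exact h1
      have hr0 : (r : W.H P) ≠ 0 := by
        intro h0
        apply hrN
        have : r = 0 := Subtype.ext h0
        rw [this]; exact zero_mem _
      rw [q2_mulL_mulL, ← pow_two α]
      by_contra hlt
      push Not at hlt
      set x1 := qtr W P (α ^ 3 * (r : W.H P)) with hx1
      set y1 := qtr W P (α ^ 3 * θ) with hy1
      set z : W.H P := x1 • θ - y1 • (r : W.H P) with hz
      have hzm : z ∈ alg W P 1 := sub_mem (Submodule.smul_mem _ _ hθ) (Submodule.smul_mem _ _ r.2)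
      have hlin : ∀ c : W.H P, qtr W P (c * z) = x1 * qtr W P (c * θ) -
          y1 * qtr W P (c * (r : W.H P)) := by
        intro c
        rw [hz, mul_sub, map_sub, rat_smul, rat_smul, mul_smul_comm, mul_smul_comm, ← rat_smul,
          ← rat_smul, map_smul, map_smul, smul_eq_mul, smul_eq_mul]
      have hz3 : qtr W P (α ^ 3 * z) = 0 := by
        rw [hlin, ← hx1, ← hy1]; ring
      have hzθ : qtr W P (α ^ 2 * (θ * z)) = x1 * qtr W P (α ^ 2 * (θ * θ)) := by
        rw [← mul_assoc, hlin, mul_assoc, mul_assoc, hθr]; ring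
      have hzr : qtr W P (α ^ 2 * ((r : W.H P) * z)) =
          - y1 * qtr W P (α ^ 2 * ((r : W.H P) * r)) := by
        rw [← mul_assoc, hlin, mul_assoc, mul_assoc, ← hB _ r.2, hθr]; ring
      have hzz : qtr W P (α ^ 2 * (z * z)) = x1 ^ 2 * qtr W P (α ^ 2 * (θ * θ)) +
          y1 ^ 2 * qtr W P (α ^ 2 * ((r : W.H P) * r)) := by
        rw [← mul_assoc, hlin, mul_assoc, mul_assoc, alg_comm hzm θ, alg_comm hzm (r : W.H P), hzθ,
          hzr]
        ring
      have hz0 : z = 0 := by
        by_contra hne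
        have h1 := hAneg z hzm hz3 hne
        rw [hzz] at h1
        have h2 := mul_nonneg (sq_nonneg x1) hmixed.le
        have h3 := mul_nonneg (sq_nonneg y1) hlt
        linarith
      have hx10 : x1 = 0 := by
        rw [hz0, mul_zero, mul_zero, map_zero] at hzθ
        exact (mul_eq_zero.1 hzθ.symm).resolve_right hmixed.ne'
      have hy10 : y1 = 0 := by
        rw [hz, hx10, zero_smul, zero_sub, neg_eq_zero, rat_smul, smul_eq_zero] at hz0
        have := hz0.resolve_right hr0
        exact_mod_cast this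
      have hθ0 : θ ≠ 0 := by
        intro h0
        rw [h0, mul_zero, mul_zero, map_zero] at hmixed
        exact lt_irrefl _ hmixed
      have h4 := hAneg θ hθ (by rw [← hy1, hy10]) hθ0
      linarith)
    y
    (fun w => by
      rw [q2_apply, mulL_coe]
      exact hy1 _ w.2)
    (fun r hr => by
      obtain ⟨⟨_, z, hz, rfl⟩, hzr⟩ : ∃ r' : alg W P 1, r' = r := ⟨r, rfl⟩
      subst hzr
      rw [q2_apply, mulL_coe]
      apply hy2 z hz
      intro v hv
      rw [hP] at hv
      rw [inum_eq (W := W) (ops.mul_mem hz hh) hv (by omega), W.cl_mul]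
      have h2 := hr ⟨W.cl P v, cl_mem_alg hv⟩
      rw [q2_apply, mulL_coe] at h2
      rw [alg_comm (cl_mem_alg hz)]
      exact h2)

variable {G : Type} [Group G] {act : G → (X ⟶ X)} {D : X.Cycles}

/-- **Positivity of the squares of the primitive classes which are invariant under `H`**, if a model of
the quotient by `H` is good. -/
theorem nonneg_of_model (hact : IsAction W act D) {H : Subgroup G} {a : Q ⟶ X} {b : Q ⟶ P}
    {h A : P.Cycles} (hm : IsQuotientModel W act D H a b h A) (hG : Good W P) {x : X.Cycles}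
    (hx : X.IsCyc 2 x) (hinv : IsInvariant W act H x)
    (hprim : ∀ w ∈ alg W X 1, qtr W X (W.cl X x * (W.cl X D * w)) = 0) :
    0 ≤ qtr W X (W.cl X x * W.cl X x) := by
  have hX := hact.dim
  have hQ := hm.dimQ
  have hP := hm.dimP
  obtain ⟨δ, hδ, hdegA⟩ := hm.degreeA
  replace hdegA := degree_cl a hdegA
  obtain ⟨ε, hε, hdegB⟩ := hm.degreeB
  replace hdegB := degree_cl b hdegB
  obtain ⟨κ, hκ, hnorm⟩ := hm.norm
  have hdesc : W.map a (W.cl X D) = W.map b (W.cl P h) := by
    have := hm.descends.cl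
    rwa [W.cl_pull, W.cl_pull] at this
  have hDm : W.cl X D ∈ alg W X 1 := hact.index.mem
  have hhm : W.cl P h ∈ alg W P 1 := cl_mem_alg hm.isCyc
  have hapull : ∀ c : W.H X, qtr W Q (W.map a c) = δ * qtr W X c := fun c => by
    rw [← one_mul (W.map a c), ← qtr_push_mul, hdegA, smul_mul_assoc, one_mul, ← rat_smul,
      map_smul, smul_eq_mul]
  have hbpull : ∀ c : W.H P, qtr W Q (W.map b c) = ε * qtr W P c := fun c => by
    rw [← one_mul (W.map b c), ← qtr_push_mul, hdegB, smul_mul_assoc, one_mul, ← rat_smul,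
      map_smul, smul_eq_mul]
  have hc4 : 0 < qtr W P (W.cl P h ^ 4) := by
    have h1 := hact.index.pos_qtr
    rw [hX] at h1
    have h2 := hbpull (W.cl P h ^ 4)
    rw [map_pow, ← hdesc, ← map_pow, hapull] at h2
    have h3 := mul_pos hδ h1
    rw [h2] at h3
    exact (mul_pos_iff_of_pos_left hε).1 h3
  -- the class on the model
  have hax : W.map a (W.cl X x) ∈ alg W Q 2 := alg_map a (cl_mem_alg hx)
  have hy : W.push b (W.map a (W.cl X x)) ∈ alg W P 2 := alg_push b hax (by omega)
  set y : alg W P 2 := ⟨W.push b (W.map a (W.cl X x)), hy⟩ with hydef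
  have hmul : ∀ c : W.H P, qtr W P ((y : W.H P) * c) = qtr W Q (W.map a (W.cl X x) * W.map b c) :=
    fun c => qtr_push_mul b _ _
  have key := nonneg_of_good hG hm.isCyc hm.indexP hc4 hm.mixed y
    (fun w hw => by
      rw [hmul, map_mul (W.map b), ← hdesc]
      have h1 : W.push a (W.map b w) ∈ alg W X 1 := alg_push a (alg_map b hw) (by omega)
      have h2 : W.map a (W.cl X x) * (W.map a (W.cl X D) * W.map b w) =
          W.map b w * W.map a (W.cl X x * W.cl X D) := by
        rw [alg_comm (alg_map b hw), map_mul, mul_assoc]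
      rw [h2, ← qtr_push_mul, alg_comm h1, mul_assoc]
      exact hprim _ h1)
    (fun r hr hnt => by
      have hbr : Q.IsCyc 1 (ops.pull b r) := ops.pull_mem b hr
      have h1 : NumTriv ops Q 2 (ops.mul (ops.pull b r) (ops.pull a D)) := by
        intro v hv
        rw [hQ] at hv
        rw [inum_eq (W := W) (ops.mul_mem hbr (ops.pull_mem a hact.index.isCyc)) hv (by omega),
          W.cl_mul, W.cl_pull, W.cl_pull, hdesc, ← map_mul]
        have hv' : P.IsCyc 2 (ops.push b v) := ops.push_mem b hv (by omega)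
        have h2 := hnt (ops.push b v) (by rw [hP]; exact hv')
        rw [inum_eq (W := W) (ops.mul_mem hr hm.isCyc) hv' (by omega), W.cl_mul, W.cl_push] at h2
        rw [alg_comm (alg_map b (alg_mul (cl_mem_alg hr) hhm)), ← qtr_push_mul,
          alg_comm (alg_push b (cl_mem_alg hv) (show 2 + P.dim = 2 + Q.dim by omega))]
        exact h2
      have hA : P.IsCyc 1 A := by simpa using (hm.indexP 0).isCyc
      have h3 := hm.contracted _ hbr h1 x hx (ops.pull b A) (by rw [hQ]; exact ops.pull_mem b hA)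
      rw [inum_eq (W := W) (ops.mul_mem hbr (ops.pull_mem a hx)) (ops.pull_mem b hA) (by omega),
        W.cl_mul, W.cl_pull, W.cl_pull, W.cl_pull] at h3
      have c1 : W.map b (W.cl P r) ∈ alg W Q 1 := alg_map b (cl_mem_alg hr)
      have c2 : W.map b (W.cl P A) ∈ alg W Q 1 := alg_map b (cl_mem_alg hA)
      rw [hmul, map_mul (W.map b), alg_comm c2, ← mul_assoc, ← alg_comm c1]
      exact h3)
  -- its square
  have h1 : q2 W P y y = κ * qtr W X (W.cl X x * W.cl X x) := by
    rw [q2_apply, hmul]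
    have h2 := (hnorm x hx hinv).cl
    rw [W.cl_push, W.cl_pull, W.cl_push, W.cl_pull, cl_smul] at h2
    have h3 : W.map b (W.push b (W.map a (W.cl X x))) ∈ alg W Q 2 := alg_map b hy
    change qtr W Q (W.map a (W.cl X x) * W.map b (W.push b (W.map a (W.cl X x)))) = _
    rw [alg_comm hax, ← qtr_push_mul, h2, smul_mul_assoc, ← rat_smul, map_smul, smul_eq_mul]
  rw [h1] at key
  by_contra hlt
  push Not at hlt
  have := mul_neg_of_pos_of_neg hκ hlt
  linarith

end Pool.Agent.H934.GC
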